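import Pool.Agent.H.MP_a8ba19.C

set_option autoImplicit false
open Set Filter Topology TopologicalSpace Finsupp

namespace Pool.Agent.H.MP_f8fbfa

inductive W (X : Type) : Type
  | gen : X → W X
  | nil : W X
  | cs : W X → ℤ → W X → W X
  | op : W X → W X → W X

open W

variable {X : Type}

abbrev F (X : Type) := W X →₀ ℤ

noncomputable def val : W X → F X
  | cs a n r => single a n + val r
  | _ => 0

theorem val_lt {a : W X} : ∀ {l : W X}, val l a ≠ 0 → sizeOf a < sizeOf l
  | gen _, h => absurd rfl h
  | nil, h => absurd rfl h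
  | op _ _, h => absurd rfl h
  | cs b n r, h => by
    by_cases hb : b = a
    · subst hb; simp; omega
    · rw [val, Finsupp.add_apply, single_eq_of_ne (Ne.symm hb), zero_add] at h
      have := val_lt h
      simp; omega

theorem val_surj (g : F X) : ∃ l, val l = g := by
  induction g using Finsupp.induction with
  | zero => exact ⟨nil, rfl⟩
  | single_add a n f _ _ ih => obtain ⟨l, rfl⟩ := ih; exact ⟨cs a n l, rfl⟩

noncomputable def code (g : F X) : W X := (val_surj g).choose

theorem val_code (g : F X) : val (code g) = g := (val_surj g).choose_spec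

noncomputable def enc (g h : F X) : W X := op (code g) (code h)

theorem enc_inj {g h g' h' : F X} (H : enc g h = enc g' h') : g = g' ∧ h = h' := by
  obtain ⟨h1, h2⟩ := op.inj H
  exact ⟨by rw [← val_code g, h1, val_code], by rw [← val_code h, h2, val_code]⟩

def gd : W X → Prop
  | op l l' => code (val l) = l ∧ code (val l') = l' ∧ val l' ≠ 0 ∧ val l' ≠ val l ∧
      ∀ u, (_h : val l' = single (op l u) 1) → ¬gd (op l u)
  | _ => False
termination_by a => sizeOf a
decreasing_by
  have : sizeOf (op l u) < sizeOf l' := val_lt (by rw [_h]; simp)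
  simp at this ⊢; omega

theorem gd_enc {a : W X} (h : gd a) : ∃ g u, a = enc g u := by
  cases a with
  | op l l' => rw [gd] at h; exact ⟨val l, val l', by rw [enc, h.1, h.2.1]⟩
  | _ => simp [gd] at h

theorem gd_iff (g u : F X) : gd (enc g u) ↔ u ≠ 0 ∧ u ≠ g ∧ ∀ v, u = single (enc g v) 1 → ¬gd (enc g v) := by
  rw [enc, gd]
  simp only [val_code, true_and]
  refine and_congr_right fun _ => and_congr_right fun _ => ⟨fun H v => H _, fun H v h1 h2 => ?_⟩
  obtain ⟨g', v', h3⟩ := gd_enc h2
  have h4 : v = code v' := (op.inj h3).2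
  subst h4
  exact H v' h1 h2

open Classical in
noncomputable def st (g h : F X) : F X :=
  if h = 0 then g else if h = g then 0 else
    if H : ∃ u, h = single (enc g u) 1 ∧ gd (enc g u) then H.choose else single (enc g h) 1

theorem enc_ne (g u : F X) : single (enc g u) 1 ≠ g := fun h => by
  have : sizeOf (enc g u) < sizeOf (code g) := val_lt (by rw [val_code]; nth_rw 1 [← h]; simp)
  simp [enc] at this
  omega

theorem st_zero (g : F X) : st g 0 = g := if_pos rfl

theorem st_self (g : F X) : st g g = 0 := by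
  unfold st
  split_ifs with h <;> simp_all

theorem st_enc {g u : F X} (h : gd (enc g u)) : st g (single (enc g u) 1) = u := by
  have H : ∃ v, single (enc g u) (1 : ℤ) = single (enc g v) 1 ∧ gd (enc g v) := ⟨u, rfl, h⟩
  rw [st, if_neg (by simp), if_neg (enc_ne g u), dif_pos H]
  exact (enc_inj (single_left_injective one_ne_zero H.choose_spec.1)).2.symm

theorem st_gd {g h : F X} (H : gd (enc g h)) : st g h = single (enc g h) 1 := by
  obtain ⟨h1, h2, h3⟩ := (gd_iff g h).1 H
  rw [st, if_neg h1, if_neg h2, dif_neg fun ⟨u, hu⟩ => h3 u hu.1 hu.2]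

theorem cases4 (g h : F X) : h = 0 ∨ h = g ∨ (∃ u, h = single (enc g u) 1 ∧ gd (enc g u)) ∨ gd (enc g h) := by
  by_contra! H
  exact H.2.2.2 ((gd_iff g h).2 ⟨H.1, H.2.1, H.2.2.1⟩)

theorem st_st (g h : F X) : st g (st g h) = h := by
  rcases cases4 g h with rfl | rfl | ⟨u, rfl, H⟩ | H
  · rw [st_zero, st_self]
  · rw [st_self, st_zero]
  · rw [st_enc H, st_gd H]
  · rw [st_gd H, st_enc H]

theorem ind {Q : W X → Prop} (h1 : ∀ a, ¬gd a → Q a)
    (h2 : ∀ g h, gd (enc g h) → (∀ a, g a ≠ 0 → Q a) → (∀ a, h a ≠ 0 → Q a) → Q (enc g h)) (a : W X) : Q a := by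
  induction hn : sizeOf a using Nat.strong_induction_on generalizing a with
  | _ n ih =>
  by_cases h : gd a
  · obtain ⟨g, u, rfl⟩ := gd_enc h
    refine h2 g u h (fun b hb => ih _ ?_ b rfl) fun b hb => ih _ ?_ b rfl
    · have : sizeOf b < sizeOf (code g) := val_lt (by rwa [val_code])
      simp [enc] at hn; omega
    · have : sizeOf b < sizeOf (code u) := val_lt (by rwa [val_code])
      simp [enc] at hn; omega
  · exact h1 a h

end Pool.Agent.H.MP_f8fbfa
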