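import Pool.Agent.H.MP_f8fbfa.A

set_option autoImplicit false
open Set Filter Topology TopologicalSpace Finsupp

namespace Pool.Agent.H.MP_f8fbfa
open W

variable {X : Type}

inductive In (x : X) : W X → Prop
  | gen : In x (gen x)
  | l (g h a) : gd (enc g h) → g a ≠ 0 → In x a → In x (enc g h)
  | r (g h a) : gd (enc g h) → h a ≠ 0 → In x a → In x (enc g h)

def lv (t : F X) : Set X := {x | ∃ a, t a ≠ 0 ∧ In x a}

theorem In.cs {x : X} {a : W X} (H : In x a) :
    a = .gen x ∨ ∃ g h, a = enc g h ∧ gd a ∧ (x ∈ lv g ∨ x ∈ lv h) := by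
  cases H with
  | gen => exact Or.inl rfl
  | l g h a h1 h2 h3 => exact Or.inr ⟨g, h, rfl, h1, Or.inl ⟨a, h2, h3⟩⟩
  | r g h a h1 h2 h3 => exact Or.inr ⟨g, h, rfl, h1, Or.inr ⟨a, h2, h3⟩⟩

theorem lv_single (a : W X) : lv (single a 1) = {x | In x a} := by
  ext x
  refine ⟨fun ⟨b, h1, h2⟩ => ?_, fun h => ⟨a, by simp, h⟩⟩
  rwa [(single_apply_ne_zero.1 h1).1] at h2

theorem in_enc {g h : F X} (H : gd (enc g h)) {x : X} : In x (enc g h) ↔ x ∈ lv g ∪ lv h := by
  refine ⟨fun h1 => ?_, ?_⟩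
  · rcases h1.cs with h2 | ⟨g', h', h2, -, h3⟩
    · cases h2
    · obtain ⟨rfl, rfl⟩ := enc_inj h2
      exact h3
  · rintro (⟨a, h1, h2⟩ | ⟨a, h1, h2⟩)
    exacts [.l _ _ _ H h1 h2, .r _ _ _ H h1 h2]

theorem in_ng {a : W X} (h : ¬gd a) {x : X} (H : In x a) : a = gen x :=
  H.cs.resolve_right fun ⟨_, _, _, h1, _⟩ => h h1

theorem lv_enc {g h : F X} (H : gd (enc g h)) : lv (single (enc g h) 1) = lv g ∪ lv h := by
  rw [lv_single]; exact Set.ext fun _ => in_enc H

theorem lv_zero : lv (0 : F X) = ∅ := eq_empty_of_forall_notMem fun _ ⟨_, h, _⟩ => h rfl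

theorem lv_fin' {t : F X} (h : ∀ a, t a ≠ 0 → {x | In x a}.Finite) : (lv t).Finite :=
  (t.support.finite_toSet.biUnion fun a ha => h a (mem_support_iff.1 ha)).subset
    fun _ ⟨a, h1, h2⟩ => mem_biUnion (mem_support_iff.2 h1) h2

theorem lv_fin (t : F X) : (lv t).Finite := by
  refine lv_fin' fun a h0 => ?_
  clear h0
  induction a using ind with
  | h1 a h =>
    refine Set.Subsingleton.finite fun x hx y hy => ?_
    exact gen.inj ((in_ng h hx).symm.trans (in_ng h hy))
  | h2 g h H h1 h2 => exact ((lv_fin' h1).union (lv_fin' h2)).subset fun x hx => (in_enc H).1 hx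

theorem lv_st (g h : F X) : lv (st g h) ⊆ lv g ∪ lv h := by
  rcases cases4 g h with rfl | rfl | ⟨u, rfl, H⟩ | H
  · rw [st_zero]; exact subset_union_left
  · rw [st_self, lv_zero]; exact empty_subset _
  · rw [st_enc H, lv_enc H]; exact fun x hx => Or.inr (Or.inr hx)
  · rw [st_gd H, lv_enc H]

open Classical in
noncomputable def ph (φ : X → X) : W X → F X × F X
  | gen x => (single (gen (φ x)) 1, 0)
  | nil => (single nil 1, 0)
  | cs a n r => (single (cs a n r) 1, n • (ph φ a).1 + (ph φ r).2)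
  | op l l' => (if gd (op l l') then st (ph φ l).2 (ph φ l').2 else single (op l l') 1, 0)

noncomputable def hom (φ : X → X) : F X →ₗ[ℤ] F X := linearCombination ℤ fun a => (ph φ a).1

theorem hom_single (φ : X → X) (a : W X) : hom φ (single a 1) = (ph φ a).1 := by simp [hom]

theorem hom_val (φ : X → X) : ∀ l, hom φ (val l) = (ph φ l).2
  | gen _ => map_zero _
  | nil => map_zero _
  | op _ _ => map_zero _
  | cs a n r => by rw [val, map_add, hom_val φ r]; simp [hom, ph]

theorem ph_enc (φ : X → X) {g h : F X} (H : gd (enc g h)) : (ph φ (enc g h)).1 = st (hom φ g) (hom φ h) := by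
  rw [enc] at H ⊢
  rw [ph, if_pos H, ← hom_val, ← hom_val, val_code, val_code]

theorem ph_ng (φ : X → X) {a : W X} (H : ¬gd a) : (∃ x, a = gen x) ∨ (ph φ a).1 = single a 1 := by
  cases a with
  | gen x => exact Or.inl ⟨x, rfl⟩
  | op l l' => rw [ph, if_neg H]; exact Or.inr rfl
  | _ => exact Or.inr rfl

theorem hom_gen (φ : X → X) (x : X) : hom φ (single (gen x) 1) = single (gen (φ x)) 1 := hom_single _ _

theorem hom_st (φ : X → X) (g h : F X) : hom φ (st g h) = st (hom φ g) (hom φ h) := by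
  rcases cases4 g h with rfl | rfl | ⟨u, rfl, H⟩ | H
  · rw [st_zero, map_zero, st_zero]
  · rw [st_self, st_self, map_zero]
  · rw [st_enc H, hom_single, ph_enc φ H, st_st]
  · rw [st_gd H, hom_single, ph_enc φ H]

theorem hom_fix' {φ : X → X} {t : F X} (h : ∀ a, t a ≠ 0 → (ph φ a).1 = single a 1) : hom φ t = t := by
  rw [hom, linearCombination_apply]
  conv_rhs => rw [← t.sum_single]
  exact Finsupp.sum_congr fun a ha => by rw [h a (mem_support_iff.1 ha)]; simp

theorem hom_fix (φ : X → X) (t : F X) (h : ∀ x ∈ lv t, φ x = x) : hom φ t = t := by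
  have H : ∀ a, (∀ x, In x a → φ x = x) → (ph φ a).1 = single a 1 := fun a => by
    induction a using ind with
    | h1 a h =>
      intro h1
      rcases ph_ng φ h with ⟨x, rfl⟩ | h2
      · rw [ph, h1 x .gen]
      · exact h2
    | h2 g h H h1 h2 =>
      intro h3
      rw [ph_enc φ H, hom_fix' fun a ha => h1 a ha fun x hx => h3 x (.l _ _ _ H ha hx),
        hom_fix' fun a ha => h2 a ha fun x hx => h3 x (.r _ _ _ H ha hx), st_gd H]
  exact hom_fix' fun a ha => H a fun x hx => h x ⟨a, ha, hx⟩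

theorem lv_hom' {φ : X → X} {t : F X} (h : ∀ a, t a ≠ 0 → lv (ph φ a).1 ⊆ φ '' {x | In x a}) :
    lv (hom φ t) ⊆ φ '' lv t := by
  rintro x ⟨b, h1, h2⟩
  rw [hom, linearCombination_apply, Finsupp.sum, Finsupp.finsetSum_apply] at h1
  obtain ⟨a, ha, h3⟩ := Finset.exists_ne_zero_of_sum_ne_zero h1
  obtain ⟨y, h4, rfl⟩ := h a (mem_support_iff.1 ha) ⟨b, fun h => h3 (by simp [h]), h2⟩
  exact ⟨y, ⟨a, mem_support_iff.1 ha, h4⟩, rfl⟩

theorem lv_hom (φ : X → X) (t : F X) : lv (hom φ t) ⊆ φ '' lv t := by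
  refine lv_hom' fun a h0 => ?_
  clear h0
  induction a using ind with
  | h1 a h =>
    rcases ph_ng φ h with ⟨x, rfl⟩ | h2
    · rw [ph, lv_single]
      exact fun y hy => ⟨x, .gen, gen.inj (in_ng (by simp [gd]) hy)⟩
    · rw [h2, lv_single]
      intro y hy
      obtain rfl := in_ng h hy
      exact ⟨y, .gen, gen.inj (single_left_injective one_ne_zero h2)⟩
  | h2 g h H h1 h2 =>
    rw [ph_enc φ H, ← lv_single, lv_enc H, image_union]
    exact (lv_st _ _).trans (union_subset_union (lv_hom' h1) (lv_hom' h2))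

end Pool.Agent.H.MP_f8fbfa
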