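import Pool.Agent.H.MP_f8fbfa.B

set_option autoImplicit false
open Set Filter Topology TopologicalSpace Finsupp

namespace Pool.Agent.H.MP_f8fbfa
open W
open Pool.Agent.H.MP_a8ba19 (Mo Ax)

variable {X P : Type} [SemilatticeSup P] (R : P → X → X → Prop) (S : P → Set X → Prop)

inductive M : ℕ → Set X → P → F X → Prop
  | zero (n K p) : M n K p 0
  | leaf (n K K' p p' x y) : K ⊆ K' → x ∈ K' → p ≤ p' → S p' K' → R p' x y →
      M n K p (single (gen y) 1 - single (gen x) 1)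
  | node (n n1 n2 K K' p p' g h g' h') : n1 + n2 < n → K ⊆ K' → lv g ⊆ K' → lv h ⊆ K' → p ≤ p' → S p' K' →
      M n1 K' p' (g' - g) → M n2 K' p' (h' - h) → M n K p (st g' h' - st g h)
  | add (n n1 n2 K p d d') : n1 + n2 ≤ n → M n1 K p d → M n2 K p d' → M n K p (d + d')

variable {R S}

theorem M.wk {n K p d} (h : M R S n K p d) : ∀ K0 p0, K0 ⊆ K → p0 ≤ p → M R S n K0 p0 d := by
  induction h with
  | zero => exact fun _ _ _ _ => .zero _ _ _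
  | leaf _ _ _ _ _ _ _ a b c d f => exact fun _ _ h1 h2 => .leaf _ _ _ _ _ _ _ (h1.trans a) b (h2.trans c) d f
  | node _ _ _ _ _ _ _ _ _ _ _ a b c d f i j k =>
    exact fun _ _ h1 h2 => .node _ _ _ _ _ _ _ _ _ _ _ a (h1.trans b) c d (h2.trans f) i j k
  | add _ _ _ _ _ _ _ a _ _ i j => exact fun _ _ h1 h2 => .add _ _ _ _ _ _ _ a (i _ _ h1 h2) (j _ _ h1 h2)

theorem M.col {φ : X → X} {p0 : P} (hφ : ∀ q x y, p0 ≤ q → R q x y → φ x = φ y) {n K p d}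
    (h : M R S n K p d) : p0 ≤ p → hom φ d = 0 := by
  induction h with
  | zero => exact fun _ => map_zero _
  | leaf _ _ _ _ _ _ _ _ _ c _ h =>
    exact fun hp => by rw [map_sub, hom_gen, hom_gen, hφ _ _ _ (hp.trans c) h, sub_self]
  | node _ _ _ _ _ _ _ _ _ _ _ _ _ _ _ f _ _ _ h1 h2 =>
    intro hp
    have a1 := h1 (hp.trans f)
    have a2 := h2 (hp.trans f)
    rw [map_sub, sub_eq_zero] at a1 a2
    rw [map_sub, hom_st, hom_st, a1, a2, sub_self]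
  | add _ _ _ _ _ _ _ _ _ _ h1 h2 => exact fun hp => by rw [map_add, h1 hp, h2 hp, add_zero]

theorem M.map {φ : X → X} {τ : P → P} (h0 : Monotone τ) (h1 : ∀ q K, S q K → S (τ q) (φ '' K))
    (h2 : ∀ q x y, R q x y → φ x = φ y ∨ R (τ q) (φ x) (φ y)) {n K p d}
    (h : M R S n K p d) : M R S n (φ '' K) (τ p) (hom φ d) := by
  induction h with
  | zero => rw [map_zero]; exact .zero _ _ _
  | leaf _ _ _ _ _ _ _ a b c d h =>
    rw [map_sub, hom_gen, hom_gen]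
    rcases h2 _ _ _ h with h | h
    · rw [h, sub_self]; exact .zero _ _ _
    · exact .leaf _ _ _ _ _ _ _ (image_mono a) (mem_image_of_mem _ b) (h0 c) (h1 _ _ d) h
  | node _ _ _ _ _ _ _ _ _ _ _ a b c d f i _ _ j k =>
    rw [map_sub, hom_st, hom_st]
    rw [map_sub] at j k
    exact .node _ _ _ _ _ _ _ _ _ _ _ a (image_mono b) ((lv_hom _ _).trans (image_mono c))
      ((lv_hom _ _).trans (image_mono d)) (h0 f) (h1 _ _ i) j k
  | add _ _ _ _ _ _ _ a _ _ j k => rw [map_add]; exact .add _ _ _ _ _ _ _ a j k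

variable (R S) (ι : P → ℕ)

def Tp (n : ℕ) (K : Set X) (p : P) (d : F X) : Prop :=
  d = 0 ∨ ∃ K' p' c σ n0 d0, K ⊆ K' ∧ p ≤ p' ∧ S p' K' ∧ (∃ y x, In y c ∧ R p' x y) ∧
    (∀ a y q x, In y a → ι p' ≤ ι q → R q x y → 0 ≤ d a) ∧ 0 < d c ∧ M R S n0 K p d0 ∧
    d = d0 + (single c 1 - σ) ∧ ((∃ y, c = gen y) ∨ ∃ g u g' u' n1 n2, c = enc g' u' ∧ σ = st g u ∧
      lv g ⊆ K' ∧ lv u ⊆ K' ∧ M R S n1 K' p' (g' - g) ∧ M R S n2 K' p' (u' - u) ∧ n0 + n1 + n2 < n)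

def A2 : Prop := ∀ p K q x y, S p K → y ∈ K → R q x y → ι q < ι p

variable {R S ι}

theorem Tp.wk {n K p d} (h : Tp R S ι n K p d) {n' K0 p0} (h0 : n ≤ n') (h1 : K0 ⊆ K)
    (h2 : p0 ≤ p) : Tp R S ι n' K0 p0 d := by
  rcases h with h | ⟨K', p', c, σ, n0, d0, a1, a2, a3, a4, a5, a6, a7, a8, a9⟩
  · exact Or.inl h
  · exact Or.inr ⟨K', p', c, σ, n0, d0, h1.trans a1, h2.trans a2, a3, a4, a5, a6, a7.wk _ _ h1 h2, a8,
      a9.imp_right fun ⟨g, u, g', u', n1, n2, b1, b2, b3, b4, b5, b6, b7⟩ =>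
        ⟨g, u, g', u', n1, n2, b1, b2, b3, b4, b5, b6, b7.trans_le h0⟩⟩

theorem Tp.add {n m K p d e} (h1 : M R S n K p d) (h2 : Tp R S ι n K p d) (h3 : M R S m K p e)
    (h4 : Tp R S ι m K p e) : Tp R S ι (n + m) K p (d + e) := by
  rcases h2 with rfl | ⟨K', p', c, σ, n0, d0, a1, a2, a3, ⟨y, x, a4, a4'⟩, a5, a6, a7, a8, a9⟩
  · rw [zero_add]; exact h4.wk (by omega) Subset.rfl le_rfl
  rcases h4 with rfl | ⟨L', q', c', σ', m0, e0, b1, b2, b3, ⟨y', x', b4, b4'⟩, b5, b6, b7, b8, b9⟩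
  · rw [add_zero]
    exact Tp.wk (Or.inr ⟨K', p', c, σ, n0, d0, a1, a2, a3, ⟨y, x, a4, a4'⟩, a5, a6, a7, a8, a9⟩) (by omega)
      Subset.rfl le_rfl
  rcases le_total (ι p') (ι q') with h | h
  · exact Or.inr ⟨L', q', c', σ', n + m0, d + e0, b1, b2, b3, ⟨y', x', b4, b4'⟩, fun a y q x i j k =>
      add_nonneg (a5 a y q x i (h.trans j) k) (b5 a y q x i j k),
      add_pos_of_nonneg_of_pos (a5 _ _ _ _ b4 h b4') b6, .add _ _ _ _ _ _ _ le_rfl h1 b7,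
      by rw [b8, add_assoc], b9.imp_right fun ⟨g, u, g', u', n1, n2, b1, b2, b3, b4, b5, b6, b7⟩ =>
        ⟨g, u, g', u', n1, n2, b1, b2, b3, b4, b5, b6, by omega⟩⟩
  · exact Or.inr ⟨K', p', c, σ, n0 + m, d0 + e, a1, a2, a3, ⟨y, x, a4, a4'⟩, fun a y q x i j k =>
      add_nonneg (a5 a y q x i j k) (b5 a y q x i (h.trans j) k),
      add_pos_of_pos_of_nonneg a6 (b5 _ _ _ _ a4 h a4'), .add _ _ _ _ _ _ _ le_rfl a7 h3,
      by rw [a8, add_right_comm], a9.imp_right fun ⟨g, u, g', u', n1, n2, b1, b2, b3, b4, b5, b6, b7⟩ =>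
        ⟨g, u, g', u', n1, n2, b1, b2, b3, b4, b5, b6, by omega⟩⟩

theorem zero_at (h2 : A2 R S ι) {p K} (hS : S p K) {t : F X} (ht : lv t ⊆ K) {a y q x} (i : In y a)
    (j : ι p ≤ ι q) (k : R q x y) : t a = 0 := by
  by_contra h
  exact (h2 _ _ _ _ _ hS (ht ⟨a, h, i⟩) k).not_ge j

theorem Tp.low (hR : Mo R) (h2 : A2 R S ι) {n K p t t'} (h : Tp R S ι n K p (t' - t)) (ht : lv t ⊆ K)
    (hl : ∀ y ∈ lv t', ∀ x, ¬R p x y) : t' = t := by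
  rcases h with h | ⟨K', p', c, σ, n0, d0, a1, a2, a3, ⟨y, x, a4, a4'⟩, a5, a6, a7, a8, a9⟩
  · exact sub_eq_zero.1 h
  · rw [Finsupp.sub_apply, zero_at h2 a3 (ht.trans a1) a4 le_rfl a4', sub_zero] at a6
    exact absurd (hR _ _ _ _ a2 a4') (hl y ⟨c, a6.ne', a4⟩ x)

theorem Tp.one (h2 : A2 R S ι) {n K K' p p' c σ} (a1 : K ⊆ K') (a2 : p ≤ p') (a3 : S p' K')
    (a4 : ∃ y x, In y c ∧ R p' x y) (hσ : lv σ ⊆ K')
    (a9 : (∃ y, c = gen y) ∨ ∃ g u g' u' n1 n2, c = enc g' u' ∧ σ = st g u ∧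
      lv g ⊆ K' ∧ lv u ⊆ K' ∧ M R S n1 K' p' (g' - g) ∧ M R S n2 K' p' (u' - u) ∧ 0 + n1 + n2 < n) :
    Tp R S ι n K p (single c 1 - σ) := by
  classical
  refine Or.inr ⟨K', p', c, σ, 0, 0, a1, a2, a3, a4, fun a y q x i j k => ?_, ?_, .zero _ _ _,
    (zero_add _).symm, a9⟩
  · rw [Finsupp.sub_apply, zero_at h2 a3 hσ i j k, sub_zero, single_apply]
    split_ifs <;> simp
  · obtain ⟨y, x, i, k⟩ := a4
    rw [Finsupp.sub_apply, zero_at h2 a3 hσ i le_rfl k]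
    simp

end Pool.Agent.H.MP_f8fbfa
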