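import Pool.Agent.H.MP_f8fbfa.C

set_option autoImplicit false
open Set Filter Topology TopologicalSpace Finsupp

namespace Pool.Agent.H.MP_f8fbfa
open W
open Pool.Agent.H.MP_a8ba19 (Mo Ax)

variable {X P : Type} [SemilatticeSup P] {R : P → X → X → Prop} {S : P → Set X → Prop} {ι : P → ℕ}

theorem dec (hR : Mo R) (hA : Ax R S) (h2 : A2 R S ι) (N : ℕ) :
    ∀ n K p d, M R S n K p d → n ≤ N → Tp R S ι n K p d := by
  induction N using Nat.strong_induction_on with
  | _ N IH =>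
  intro n K p d h
  induction h with
  | zero => exact fun _ => Or.inl rfl
  | leaf _ _ _ _ _ x y a b c d f =>
    refine fun _ => Tp.one h2 a c d ⟨y, x, .gen, f⟩ (fun z hz => ?_) (Or.inl ⟨y, rfl⟩)
    rw [lv_single] at hz
    rwa [← gen.inj (in_ng (by simp [gd]) hz)]
  | add n n1 n2 K p d d' a j k ih1 ih2 =>
    exact fun hn => (Tp.add j (ih1 (by omega)) k (ih2 (by omega))).wk a Subset.rfl le_rfl
  | node n n1 n2 K K' p p' g h g' h' a b c d f i j k ih1 ih2 =>
    intro hn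
    have ih1 := ih1 (by omega)
    have ih2 := ih2 (by omega)
    have hg : ∀ s, lv s ⊆ K' → ∀ m, M R S m K' p' (g' - s) → s = g := by
      rintro s h3 m h4
      obtain ⟨φ, τ, a1, a2, -⟩ := hA _ _ i
      have b1 := h4.col a2 le_rfl
      have b2 := j.col a2 le_rfl
      rw [map_sub, sub_eq_zero] at b1 b2
      rw [← hom_fix φ s fun x hx => a1 x (h3 hx), ← hom_fix φ g fun x hx => a1 x (c hx), ← b1, b2]
    rcases cases4 g' h' with rfl | rfl | ⟨u', rfl, H⟩ | H
    · rw [← ih2.low hR h2 d (by simp [lv_zero]), st_zero, st_zero]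
      exact ih1.wk (by omega) b f
    · rw [hg h d _ k, st_self, st_self]
      exact Or.inl (sub_self _)
    · rcases ih2 with h0 | ⟨K'', p'', c', σ, m0, d0, b', f', i', ⟨y, x, a4, a4'⟩, -, a6, j', a8, a9⟩
      · obtain rfl := sub_eq_zero.1 h0
        rw [lv_enc H] at d
        rw [← hg g' (subset_union_left.trans d) 0 (by rw [sub_self]; exact .zero _ _ _)]
        exact Or.inl (sub_self _)
      rw [Finsupp.sub_apply, zero_at h2 i' (d.trans b') a4 le_rfl a4', sub_zero] at a6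
      obtain rfl := (single_apply_ne_zero.1 a6.ne').1
      obtain ⟨y, hy⟩ | ⟨g2, u, g3, u3, m1, m2, a', rfl, c', d', k', l', o'⟩ := a9
      · cases hy
      obtain ⟨rfl, rfl⟩ := enc_inj a'
      obtain ⟨φ, τ, a1, a2, a3, a4, a5, a6⟩ := hA _ _ i'
      have h5 := j.map a3 a4 a5
      have h7 := k'.col a2 le_rfl
      rw [map_sub, sub_eq_zero, hom_fix φ g2 fun x hx => a1 x (c' hx)] at h7
      rw [a6 _ f', map_sub, hom_fix φ g fun x hx => a1 x (b' (c hx)), h7] at h5
      have h8 : d0 = st g2 u - h := by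
        rw [← add_left_inj (single (enc g' u') 1 - st g2 u), ← a8]; abel
      have h6 := M.node (n1 + m0 + 1) _ _ K _ p _ _ _ _ _ (Nat.lt_succ_self _) b c d f i
        (h5.wk K' _ (fun x hx => ⟨x, hx, a1 x (b' hx)⟩) le_rfl) (h8 ▸ j')
      have h9 := M.add (n1 + m0 + 1 + m2) _ _ _ _ _ _ le_rfl h6 (l'.wk _ _ (b.trans b') (f.trans f'))
      rw [st_st, show u - st g h + (u' - u) = u' - st g h by abel] at h9
      rw [st_enc H]
      exact (IH _ (by omega) _ _ _ _ h9 le_rfl).wk (by omega) Subset.rfl le_rfl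
    · by_cases h0 : ∃ y x, In y (enc g' h') ∧ R p' x y
      · rw [st_gd H]
        exact Tp.one h2 b f i h0 ((lv_st _ _).trans (union_subset c d))
          (Or.inr ⟨g, h, g', h', n1, n2, rfl, rfl, c, d, j, k, by omega⟩)
      · push Not at h0
        rw [ih1.low hR h2 c fun y hy x => h0 y x ((in_enc H).2 (Or.inl hy)),
          ih2.low hR h2 d fun y hy x => h0 y x ((in_enc H).2 (Or.inr hy))]
        exact Or.inl (sub_self _)

variable (R)

abbrev Gauge (X P : Type) := List (F X × F X × ℕ) → P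

inductive D : Gauge X P → F X → F X → Prop
  | refl (γ t) : D γ t t
  | leaf (γ x y) : R (γ []) x y → D γ (single (gen x) 1) (single (gen y) 1)
  | node (γ g h g' h') : D (fun l => γ ((g, h, 0) :: l)) g g' → D (fun l => γ ((g, h, 1) :: l)) h h' →
      D γ (st g h) (st g' h')
  | add (γ g h g' h') : D (fun l => γ ((g, h, 2) :: l)) g g' → D (fun l => γ ((g, h, 3) :: l)) h h' →
      D γ (g + h) (g' + h')

variable {R}

theorem D.mono (hR : Mo R) {γ t t'} (h : D R γ t t') : ∀ δ, δ ≤ γ → D R δ t t' := by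
  induction h with
  | refl => exact fun δ _ => .refl _ _
  | leaf _ _ _ h => exact fun δ hd => .leaf _ _ _ (hR _ _ _ _ (hd _) h)
  | node _ _ _ _ _ _ _ h1 h2 => exact fun δ hd => .node _ _ _ _ _ (h1 _ fun _ => hd _) (h2 _ fun _ => hd _)
  | add _ _ _ _ _ _ _ h1 h2 => exact fun δ hd => .add _ _ _ _ _ (h1 _ fun _ => hd _) (h2 _ fun _ => hd _)

noncomputable def ga (σ : Set X → P) : Set X → P → Gauge X P := fun K p l =>
  l.rec (motive := fun _ => Set X → P → P) (fun _ p => p)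
    (fun a _ ih K p => ih (K ∪ lv a.1 ∪ lv a.2.1) (p ⊔ σ (K ∪ lv a.1 ∪ lv a.2.1))) K p

theorem toM (σ : Set X → P) (hσ : ∀ K, K.Finite → ∀ p, σ K ≤ p → S p K) {γ t t'}
    (h : D R γ t t') : ∀ K p, K.Finite → lv t ⊆ K → S p K → γ = ga σ K p → ∃ n, M R S n K p (t' - t) := by
  induction h with
  | refl => exact fun _ _ _ _ _ _ => ⟨0, by rw [sub_self]; exact .zero _ _ _⟩
  | leaf _ x _ h =>
    exact fun _ _ _ a b hγ => ⟨0, .leaf _ _ _ _ _ _ _ Subset.rfl (a (by rw [lv_single]; exact .gen)) le_rfl b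
      (by subst hγ; exact h)⟩
  | node γ g h g' h' _ _ h1 h2 =>
    intro K p hK _ _ hγ
    have hK' := (hK.union (lv_fin g)).union (lv_fin h)
    have hS := hσ _ hK' _ (le_sup_right (a := p))
    obtain ⟨n1, h1⟩ := h1 _ _ hK' (fun x hx => Or.inl (Or.inr hx)) hS (by subst hγ; rfl)
    obtain ⟨n2, h2⟩ := h2 _ _ hK' subset_union_right hS (by subst hγ; rfl)
    exact ⟨_, .node _ _ _ _ _ _ _ _ _ _ _ (Nat.lt_succ_self _) (fun x hx => Or.inl (Or.inl hx))
      (fun x hx => Or.inl (Or.inr hx)) subset_union_right le_sup_left hS h1 h2⟩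
  | add γ g h g' h' _ _ h1 h2 =>
    intro K p hK _ _ hγ
    have hK' := (hK.union (lv_fin g)).union (lv_fin h)
    have hS := hσ _ hK' _ (le_sup_right (a := p))
    obtain ⟨n1, h1⟩ := h1 _ _ hK' (fun x hx => Or.inl (Or.inr hx)) hS (by subst hγ; rfl)
    obtain ⟨n2, h2⟩ := h2 _ _ hK' subset_union_right hS (by subst hγ; rfl)
    rw [add_sub_add_comm]
    exact ⟨_, (M.add _ _ _ _ _ _ _ le_rfl h1 h2).wk _ _ (fun x hx => Or.inl (Or.inl hx)) le_sup_left⟩

theorem key (hR : Mo R) (hA : Ax R S) (h2 : A2 R S ι)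
    (h3 : ∀ K : Set X, K.Finite → ∃ q, ∀ p, q ≤ p → S p K) (p : P) (t : F X) :
    ∃ γ, ∀ t', D R γ t t' → (∀ y ∈ lv t', ∀ x, ¬R p x y) → t' = t := by
  have : Nonempty P := ⟨p⟩
  choose! σ hσ using h3
  refine ⟨ga σ (lv t) (p ⊔ σ (lv t)), fun t' h hl => ?_⟩
  obtain ⟨n, h⟩ := toM (S := S) σ hσ h _ _ (lv_fin t) Subset.rfl (hσ _ (lv_fin t) _ le_sup_right) rfl
  exact (dec hR hA h2 n _ _ _ _ h le_rfl).low hR h2 Subset.rfl fun y hy x h =>
    hl y hy x (hR _ _ _ _ le_sup_left h)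

end Pool.Agent.H.MP_f8fbfa
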