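import Pool.Agent.H.MP_f8fbfa.D

set_option autoImplicit false
open Set Filter Topology TopologicalSpace Finsupp

namespace Pool.Agent.H.MP_f8fbfa
open W
open Pool.Agent.H.MP_a8ba19 (Mo Ax Y R S hR hA h3 I Br bd diag)

def L : Type := F Y

noncomputable instance : AddCommGroup L := inferInstanceAs (AddCommGroup (F Y))

instance : TopologicalSpace L where
  IsOpen U := ∀ t ∈ U, ∃ γ, ∀ t' : L, D R γ t t' → t' ∈ U
  isOpen_univ := fun _ _ => ⟨fun _ => Classical.arbitrary _, fun _ _ => trivial⟩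
  isOpen_inter := fun _ _ h1 h2 t ht => by
    obtain ⟨γ, h1⟩ := h1 t ht.1
    obtain ⟨δ, h2⟩ := h2 t ht.2
    exact ⟨γ ⊔ δ, fun t' h => ⟨h1 _ (h.mono hR _ le_sup_left), h2 _ (h.mono hR _ le_sup_right)⟩⟩
  isOpen_sUnion := fun _ h t ⟨s, hs, ht⟩ => (h s hs t ht).imp fun _ h t' h' => ⟨s, hs, h t' h'⟩

theorem nh (t : L) (γ : Gauge Y (I × ℕ)) : {t' : L | D R γ t t'} ∈ 𝓝 t := by
  refine mem_nhds_iff.2 ⟨{s | ∃ δ, ∀ u : L, D R δ s u → D R γ t u}, fun s ⟨δ, h⟩ =>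
    h s (.refl _ _), fun s ⟨δ, h⟩ => ⟨fun l => δ ((s, 0, 0) :: l), fun v hv =>
    ⟨fun l => δ ((s, 0, 1) :: (v, v, 1) :: l), fun u hu => h u ?_⟩⟩, γ, fun _ h => h⟩
  have h1 := D.node (R := R) (fun l => δ ((s, 0, 1) :: l)) v v v u (.refl _ _) hu
  rw [st_self] at h1
  have h2 := D.node (R := R) δ s 0 v _ hv h1
  rwa [st_zero, st_st] at h2

theorem nh' {t : L} {U : Set L} (h : U ∈ 𝓝 t) : ∃ γ, ∀ t' : L, D R γ t t' → t' ∈ U := by
  obtain ⟨V, h1, h2, h3⟩ := mem_nhds_iff.1 h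
  exact (h2 t h3).imp fun _ h t' h' => h1 (h t' h')

noncomputable def m (g h : L) : L := st g h

theorem mm (g h : L) : m g (m g h) = h := st_st _ _

theorem ms (g : L) : m g g = 0 := st_self _

theorem mc : Continuous fun z : L × L => m z.1 z.2 := by
  refine continuous_def.2 fun U hU => isOpen_iff_mem_nhds.2 fun ⟨g, h⟩ hz => ?_
  obtain ⟨γ, hγ⟩ := hU _ hz
  exact mem_of_superset (prod_mem_nhds (nh g _) (nh h _)) fun z hz => hγ _ (.node γ _ _ _ _ hz.1 hz.2)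

instance : ContinuousAdd L := ⟨by
  refine continuous_def.2 fun U hU => isOpen_iff_mem_nhds.2 fun ⟨g, h⟩ hz => ?_
  obtain ⟨γ, hγ⟩ := hU _ hz
  exact mem_of_superset (prod_mem_nhds (nh g _) (nh h _)) fun z hz => hγ _ (.add γ _ _ _ _ hz.1 hz.2)⟩

instance : RegularSpace L := by
  refine RegularSpace.of_exists_mem_nhds_isClosed_subset fun t U hU => ?_
  have h1 : m t 0 = t := by rw [← ms t, mm]
  have h2 : (fun z : L × L => m z.1 z.2) ⁻¹' U ∈ 𝓝 (t, 0) :=
    mc.continuousAt.preimage_mem_nhds (by rwa [h1])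
  obtain ⟨V, hV, O, hO, h3⟩ := mem_nhds_prod_iff.1 h2
  refine ⟨closure V, mem_of_superset hV subset_closure, isClosed_closure, fun x hx => ?_⟩
  have h4 : (fun y => m y x) ⁻¹' O ∈ 𝓝 x :=
    (mc.comp (continuous_id.prodMk continuous_const)).continuousAt.preimage_mem_nhds (by
      simpa [ms] using hO)
  obtain ⟨y, h5, h6⟩ := mem_closure_iff_nhds.1 hx _ h4
  simpa [mm] using h3 (mk_mem_prod h6 h5)

theorem gdl (t : L) : ∃ U : ℕ → Set L, (∀ n, U n ∈ 𝓝 t) ∧ ∀ s, (∀ n, s ∈ U n) → s = t := by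
  choose γ hγ using fun n : ℕ => key (ι := Prod.snd) hR hA (by
    rintro _ _ _ _ _ h hy ⟨_, _, _, _, _, rfl, _, h', _⟩
    exact h'.trans_le (h.1 _ _ _ hy).2) h3 (Classical.arbitrary I, n) t
  refine ⟨fun n => {t' | D R (γ n) t t'}, fun _ => nh t _, fun s hs => ?_⟩
  obtain ⟨q, hq⟩ := h3 _ (lv_fin s)
  refine hγ q.2 _ (hs q.2) ?_
  rintro _ hy _ ⟨_, _, _, _, _, rfl, _, h, _⟩
  exact h.not_ge ((hq q le_rfl).1 _ _ _ hy).2

instance : T1Space L := t1Space_iff_exists_open.2 fun t s h => by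
  obtain ⟨U, h1, h2⟩ := gdl t
  obtain ⟨n, hn⟩ := not_forall.1 fun H => h (h2 s H).symm
  exact ⟨interior (U n), isOpen_interior, mem_interior_iff_mem_nhds.2 (h1 n), fun h => hn (interior_subset h)⟩

instance : T3Space L where

theorem ng (H : Type) [Group H] [TopologicalSpace H] [IsTopologicalGroup H] (f : L ≃ₜ H) : False := by
  obtain ⟨U, h1, h2⟩ := gdl (f.symm 1)
  choose V hV hU using fun n => exists_nhds_split_inv (G := H) (s := f.symm ⁻¹' U n)
    (f.symm.continuous.continuousAt.preimage_mem_nhds (h1 n))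
  let g : Y → L := fun y => single (gen y) 1
  choose γ hγ using fun (a : Br) (n : ℕ) => nh' (t := g (.inl a)) (U := {t | (f (g (.inl a)))⁻¹ * f t ∈ V n})
    ((continuous_const.mul f.continuous).continuousAt.preimage_mem_nhds (by simpa using hV n))
  choose α hα using fun a => bd fun n => (γ a n []).1
  obtain ⟨a, b, ξ, h1, h2', h3, h4⟩ := diag α
  have h5 : (f (g (.inl a)))⁻¹ * f (g (.inl b)) = 1 := f.symm.injective (h2 _ fun n => by
    let y : Y := .inr (a, ξ, max (γ a n []).2 (γ b n []).2 + 1)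
    have a1 := hγ a n (g y) (.leaf _ _ _ ⟨a, a, ξ, _, rfl, rfl, (hα a n).le.trans h2',
      Nat.lt_succ_of_le (le_max_left _ _), fun _ _ => rfl⟩)
    have a2 := hγ b n (g y) (.leaf _ _ _ ⟨b, a, ξ, _, rfl, rfl, (hα b n).le.trans h3,
      Nat.lt_succ_of_le (le_max_right _ _), h4⟩)
    simpa [div_eq_mul_inv, mul_assoc] using hU n _ a1 _ a2)
  exact h1 (Sum.inl.inj (gen.inj (single_left_injective one_ne_zero (f.injective (inv_mul_eq_one.1 h5)))))

end Pool.Agent.H.MP_f8fbfa
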